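import Pool.Agent.P.MP_e55f1b_co.Gap

namespace Pool.Agent.Results.MP_e55f1b_co.SharpGap

/-- The negative square energy: the sum of the squares of the negative adjacency eigenvalues. -/
noncomputable def negSquareEnergy {V : Type} [Fintype V] [DecidableEq V] (G : SimpleGraph V)
    [DecidableRel G.Adj] : ℝ :=
  ∑ i with (G.isHermitian_adjMatrix ℝ).eigenvalues i < 0,
    (G.isHermitian_adjMatrix ℝ).eigenvalues i ^ 2

theorem result :
    (∀ (V : Type) [Fintype V] [DecidableEq V] (G : SimpleGraph V) [DecidableRel G.Adj],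
      G.Connected →
        ((G.IsTree ∨ G = ⊤) → negSquareEnergy G = (Fintype.card V : ℝ) - 1) ∧
        (¬ (G.IsTree ∨ G = ⊤) →
          (Fintype.card V : ℝ) - 1 + 1 / (10000 * (Fintype.card V : ℝ)) ≤ negSquareEnergy G)) ∧
    (∀ n : ℕ, 5 ≤ n → ∃ (G : SimpleGraph (Fin n)) (_ : DecidableRel G.Adj),
      G.Connected ∧ ¬ (G.IsTree ∨ G = ⊤) ∧ negSquareEnergy G ≤ (n : ℝ) - 1 + 16 / (n : ℝ)) := by
  refine ⟨fun V _ _ G _ hG => ⟨(Pool.Agent.P.MP_e55f1b_co.main hG).2, fun h =>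
    Pool.Agent.P.MP_e55f1b_co.main_gap hG (fun h1 => h (Or.inl h1)) fun h1 => h (Or.inr h1)⟩,
    fun n hn => ?_⟩
  obtain ⟨k, rfl⟩ : ∃ k, n = k + 4 := ⟨n - 4, by omega⟩
  exact ⟨Pool.Agent.P.MP_e55f1b_co.ts (k + 4), inferInstance,
    Pool.Agent.P.MP_e55f1b_co.ts_connected k,
    fun h => h.elim (Pool.Agent.P.MP_e55f1b_co.ts_not_tree k)
      (Pool.Agent.P.MP_e55f1b_co.ts_ne_top k),
    Pool.Agent.P.MP_e55f1b_co.ts_energy k (by omega)⟩

end Pool.Agent.Results.MP_e55f1b_co.SharpGap
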